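import Mathlib

/-!
ST5 row F1. Traces of the powers of an endomorphism of a finite-dimensional complex space are
the power sums of its eigenvalues with multiplicities.

PROOF. Several ways. (a) V is the internal direct sum of the generalised eigenspaces
(`Module.End.iSup_maxGenEigenspace_eq_top`, independent), each is invariant under L, the trace of
L^m is the sum of the traces of the restrictions (`LinearMap.trace_eq_sum_trace_restrict`), and on
the generalised eigenspace of c the operator L^m - c^m is nilpotent (trace 0:
`LinearMap.isNilpotent_trace_of_isNilpotent`, `IsNilpotent` in a field = 0), so the trace of L^m is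
c^m * finrank. (b) pass to a matrix, `Matrix.charpoly` splits over ℂ,
`Matrix.trace_eq_sum_roots_charpoly`, and `Matrix.charpoly` of a power / `aeval` of a polynomial:
Mathlib has `Matrix.aeval_eq_aeval_mod_charpoly`, `Matrix.charpoly_pow_...`? (search
`roots_charpoly`, `Matrix.IsHermitian` is not needed). (a) is safe.
-/

namespace Pool.Agent.ST5

theorem trace_pow_eq_sum {V : Type*} [AddCommGroup V] [Module ℂ V] [FiniteDimensional ℂ V]
    (L : V →ₗ[ℂ] V) :
    ∃ (s : Finset ℂ) (n : ℂ → ℕ), ∀ m : ℕ,
      LinearMap.trace ℂ V (L ^ m) = ∑ c ∈ s, (n c : ℂ) * c ^ m := by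
  classical
  have hds := DirectSum.isInternal_submodule_of_iSupIndep_of_iSup_eq_top
      (Module.End.independent_maxGenEigenspace (R := ℂ) L)
      (Module.End.iSup_maxGenEigenspace_eq_top L)
  have h_fin : {μ | Module.End.maxGenEigenspace L μ ≠ ⊥}.Finite :=
      WellFoundedGT.finite_ne_bot_of_iSupIndep (Module.End.independent_maxGenEigenspace (R := ℂ) L)
  refine ⟨h_fin.toFinset, fun c => Module.finrank ℂ (Module.End.maxGenEigenspace L c), fun m => ?_⟩
  have hf : ∀ (m : ℕ) (μ : ℂ), Set.MapsTo (L ^ m) (Module.End.maxGenEigenspace L μ : Set V)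
      (Module.End.maxGenEigenspace L μ : Set V) := fun m μ =>
    Module.End.mapsTo_maxGenEigenspace_of_comm ((Commute.refl L).pow_right m) μ
  have hf1 : ∀ (μ : ℂ), Set.MapsTo L (Module.End.maxGenEigenspace L μ : Set V)
      (Module.End.maxGenEigenspace L μ : Set V) := fun μ =>
    Module.End.mapsTo_maxGenEigenspace_of_comm (Commute.refl L) μ
  rw [LinearMap.trace_eq_sum_trace_restrict' hds h_fin (hf m)]
  refine Finset.sum_congr rfl fun μ _ => ?_
  have key : ∀ k : ℕ, LinearMap.trace ℂ (Module.End.maxGenEigenspace L μ)
      ((L.restrict (hf1 μ)) ^ k) = Module.finrank ℂ (Module.End.maxGenEigenspace L μ) * μ ^ k := by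
    intro k
    induction k with
    | zero => rw [pow_zero, pow_zero, mul_one, LinearMap.trace_one]
    | succ k ih =>
      have h1 := Module.End.isNilpotent_restrict_maxGenEigenspace_sub_algebraMap L μ
      have h2 := LinearMap.trace_comp_eq_mul_of_commute_of_isNilpotent (R := ℂ)
        (M := Module.End.maxGenEigenspace L μ) (f := (L.restrict (hf1 μ)) ^ k)
        (g := L.restrict (hf1 μ)) μ ((Commute.refl _).pow_left k) h1
      rw [pow_succ, Module.End.mul_eq_comp, h2, ih]
      ring
  rw [← key m]
  congr 1
  rw [Module.End.pow_restrict]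

end Pool.Agent.ST5
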