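import Mathlib

/-!
ST5 row F2. The spectral measure of a symmetric matrix with natural entries at a basis vector.

PROOF. `A := G.map (Nat.cast : ℕ → ℝ)` is Hermitian (symmetric real), `Matrix.IsHermitian`
spectral theorem: A = U D U*, so (A^m) o o = ∑_i (U o i)^2 * (eigenvalues i)^m
(`Matrix.IsHermitian.spectral_theorem`, induction on m, or `IsHermitian.eigenvectorBasis` and
`A^m` acting on the eigenvectors). Collect equal eigenvalues: s := image of the eigenvalues,
w c := ∑_{i : eigenvalues i = c} (U o i)^2 >= 0. The eigenvalues are integral over ℤ: they are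
roots of the characteristic polynomial of A, which is the image of the characteristic polynomial
of the integer matrix `G.map (Nat.cast : ℕ → ℤ)` (`Matrix.charpoly_map`, monic)
(`Matrix.IsHermitian.eigenvalues_mem_spectrum...` / `Matrix.mem_spectrum_iff_isRoot_charpoly`).
`(G ^ m) o o` casts to `(A ^ m) o o` (`Matrix.map_pow` for the ring hom `Nat.castRingHom ℝ`).
-/

namespace Pool.Agent.ST5

theorem exists_spectral_measure {J : Type*} [Fintype J] [DecidableEq J] (G : Matrix J J ℕ)
    (hsym : ∀ i j, G i j = G j i) (o : J) :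
    ∃ (s : Finset ℝ) (w : ℝ → ℝ), (∀ c ∈ s, 0 ≤ w c) ∧ (∀ c ∈ s, IsIntegral ℤ c) ∧
      ∀ m : ℕ, (((G ^ m) o o : ℕ) : ℝ) = ∑ c ∈ s, w c * c ^ m := by
  classical
  set M : Matrix J J ℤ := G.map (Nat.castRingHom ℤ) with hM
  set A : Matrix J J ℝ := M.map (Int.castRingHom ℝ) with hAdef
  have hAG : A = G.map (Nat.castRingHom ℝ) := by
    ext i j
    simp [hAdef, hM]
  have hA : A.IsHermitian := by
    rw [hAG]
    ext i j
    rw [Matrix.conjTranspose_apply, Matrix.map_apply, Matrix.map_apply, hsym j i]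
    rfl
  have hpow : ∀ m : ℕ, A ^ m = (hA.eigenvectorUnitary : Matrix J J ℝ) *
      Matrix.diagonal (fun i => hA.eigenvalues i ^ m) *
        star (hA.eigenvectorUnitary : Matrix J J ℝ) := by
    intro m
    conv_lhs => rw [hA.spectral_theorem]
    rw [← map_pow, Matrix.diagonal_pow, Unitary.conjStarAlgAut_apply]
    rfl
  have hentry : ∀ m : ℕ, (((G ^ m) o o : ℕ) : ℝ) =
      ∑ k, (hA.eigenvectorUnitary : Matrix J J ℝ) o k ^ 2 * hA.eigenvalues k ^ m := by
    intro m
    have h1 : (((G ^ m) o o : ℕ) : ℝ) = (A ^ m) o o := by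
      rw [hAG]
      have h2 := Matrix.map_pow G (Nat.castRingHom ℝ) m
      rw [← h2, Matrix.map_apply]
      rfl
    rw [h1, hpow m, Matrix.mul_apply]
    apply Finset.sum_congr rfl
    intro k _
    rw [Matrix.mul_diagonal, Matrix.star_apply, star_trivial]
    ring
  refine ⟨Finset.univ.image hA.eigenvalues, fun c =>
    ∑ k ∈ Finset.univ.filter (fun k => hA.eigenvalues k = c),
      (hA.eigenvectorUnitary : Matrix J J ℝ) o k ^ 2, ?_, ?_, ?_⟩
  · intro c _
    exact Finset.sum_nonneg (fun k _ => sq_nonneg _)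
  · intro c hc
    obtain ⟨i, -, rfl⟩ := Finset.mem_image.1 hc
    refine ⟨M.charpoly, M.charpoly_monic, ?_⟩
    rw [← Polynomial.eval_map]
    have h1 : Polynomial.map (algebraMap ℤ ℝ) M.charpoly = A.charpoly :=
      (Matrix.charpoly_map M (Int.castRingHom ℝ)).symm
    rw [h1, hA.charpoly_eq, Polynomial.eval_prod]
    apply Finset.prod_eq_zero (Finset.mem_univ i)
    simp
  · intro m
    rw [hentry m, ← Finset.sum_fiberwise_of_maps_to (g := hA.eigenvalues)
      (t := Finset.univ.image hA.eigenvalues)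
      (fun k _ => Finset.mem_image_of_mem _ (Finset.mem_univ k))]
    apply Finset.sum_congr rfl
    intro c _
    rw [Finset.sum_mul]
    apply Finset.sum_congr rfl
    intro k hk
    rw [(Finset.mem_filter.1 hk).2]

end Pool.Agent.ST5
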