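import Mathlib

/-!
ST5 row F3. Independence of power sums (Vandermonde), and the rationality of weights.

`eq_zero_of_power_sums`: evaluate the polynomial ∏_{y ∈ s, y ≠ x} (X - C y) (linear combination
of the hypotheses), or `Matrix.det_vandermonde_ne_zero_iff`. Clean way: for every polynomial P,
∑ c ∈ s, u c * P.eval c = 0 (`Polynomial.induction_on`), then take
P = ∏ y ∈ s.erase x, (X - C y).

`rational_weights`: D, d W rational, D ≠ 0, n W c natural. The total weight of c in the union of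
the sets is, by `eq_zero_of_power_sums` applied to the finite set
(s.image (↑)) ∪ ⋃ W, t W with the coefficient function
u c = D * (if c = (τ : ℂ) for some τ ∈ s then w τ else 0) - ∑ W ∈ E, d W * (if c ∈ t W then n W c else 0),
equal to 0; so for τ ∈ s: w τ = D⁻¹ * ∑ W ∈ E, d W * (if τ ∈ t W then n W τ else 0), rational.
-/

namespace Pool.Agent.ST5

theorem eq_zero_of_power_sums (s : Finset ℂ) (u : ℂ → ℂ)
    (h : ∀ k : ℕ, ∑ c ∈ s, u c * c ^ k = 0) : ∀ c ∈ s, u c = 0 := by
  classical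
  have key : ∀ P : Polynomial ℂ, ∑ c ∈ s, u c * P.eval c = 0 := by
    intro P
    simp only [Polynomial.eval_eq_sum_range, Finset.mul_sum]
    rw [Finset.sum_comm]
    refine Finset.sum_eq_zero fun i _ => ?_
    have h1 := h i
    calc ∑ c ∈ s, u c * (P.coeff i * c ^ i) = P.coeff i * ∑ c ∈ s, u c * c ^ i := by
          rw [Finset.mul_sum]
          refine Finset.sum_congr rfl fun c _ => ?_
          ring
      _ = 0 := by rw [h1, mul_zero]
  intro x hx
  have h1 := key (∏ y ∈ s.erase x, (Polynomial.X - Polynomial.C y))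
  rw [Finset.sum_eq_single x] at h1
  · rcases mul_eq_zero.1 h1 with h2 | h2
    · exact h2
    · exfalso
      rw [Polynomial.eval_prod, Finset.prod_eq_zero_iff] at h2
      obtain ⟨y, hy, hy'⟩ := h2
      rw [Polynomial.eval_sub, Polynomial.eval_X, Polynomial.eval_C, sub_eq_zero] at hy'
      exact (Finset.mem_erase.1 hy).1 hy'.symm
  · intro c hc hcx
    rw [Polynomial.eval_prod, Finset.prod_eq_zero (Finset.mem_erase.2 ⟨hcx, hc⟩), mul_zero]
    simp
  · intro h2; exact absurd hx h2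

theorem rational_weights {J : Type*} (E : Finset J) (D : ℚ) (hD : D ≠ 0) (d : J → ℚ)
    (t : J → Finset ℂ) (n : J → ℂ → ℕ) (s : Finset ℝ) (w : ℝ → ℝ)
    (h : ∀ k : ℕ, ∑ W ∈ E, (d W : ℂ) * ∑ c ∈ t W, (n W c : ℂ) * c ^ k =
      (D : ℂ) * ((∑ τ ∈ s, w τ * τ ^ k : ℝ) : ℂ)) :
    ∀ τ ∈ s, ∃ y : ℚ, w τ = y := by
  classical
  set T : Finset ℂ := s.image (fun τ : ℝ => (τ : ℂ)) ∪ E.biUnion t with hT
  set a : ℂ → ℂ := fun c => if c ∈ s.image (fun τ : ℝ => (τ : ℂ)) then (w c.re : ℂ) else 0 with ha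
  set b : J → ℂ → ℂ := fun W c => if c ∈ t W then (n W c : ℂ) else 0 with hb
  have hu := eq_zero_of_power_sums T (fun c => (D : ℂ) * a c - ∑ W ∈ E, (d W : ℂ) * b W c) (by
    intro k
    have e1 : ∑ c ∈ T, a c * c ^ k = ((∑ τ ∈ s, w τ * τ ^ k : ℝ) : ℂ) := by
      have : ∑ c ∈ T, a c * c ^ k = ∑ c ∈ s.image (fun τ : ℝ => (τ : ℂ)), a c * c ^ k := by
        symm
        refine Finset.sum_subset Finset.subset_union_left fun c _ hc => ?_
        rw [ha]
        simp only [if_neg hc, zero_mul]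
      rw [this, Finset.sum_image (fun x _ y _ hxy => Complex.ofReal_injective hxy)]
      rw [Complex.ofReal_sum]
      refine Finset.sum_congr rfl fun τ hτ => ?_
      have : a (τ : ℂ) = (w τ : ℂ) := by
        rw [ha]
        simp only [if_pos (Finset.mem_image_of_mem (fun τ : ℝ => (τ : ℂ)) hτ), Complex.ofReal_re]
      rw [this]
      push_cast
      ring
    have e2 : ∀ W ∈ E, ∑ c ∈ T, b W c * c ^ k = ∑ c ∈ t W, (n W c : ℂ) * c ^ k := by
      intro W hW
      symm
      have : ∑ c ∈ t W, (n W c : ℂ) * c ^ k = ∑ c ∈ t W, b W c * c ^ k := by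
        refine Finset.sum_congr rfl fun c hc => ?_
        rw [hb]
        simp only [if_pos hc]
      rw [this]
      refine Finset.sum_subset ?_ fun c _ hc => ?_
      · exact (Finset.subset_biUnion_of_mem t hW).trans Finset.subset_union_right
      · rw [hb]
        simp only [if_neg hc, zero_mul]
    have e3 : ∑ c ∈ T, ((D : ℂ) * a c - ∑ W ∈ E, (d W : ℂ) * b W c) * c ^ k =
        (D : ℂ) * ∑ c ∈ T, a c * c ^ k - ∑ W ∈ E, (d W : ℂ) * ∑ c ∈ T, b W c * c ^ k := by
      simp only [sub_mul, Finset.sum_sub_distrib, Finset.mul_sum, Finset.sum_mul]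
      rw [Finset.sum_comm (s := T) (t := E)]
      simp only [mul_assoc]
    have e4 : ∑ W ∈ E, (d W : ℂ) * ∑ c ∈ T, b W c * c ^ k =
        ∑ W ∈ E, (d W : ℂ) * ∑ c ∈ t W, (n W c : ℂ) * c ^ k :=
      Finset.sum_congr rfl fun W hW => by rw [e2 W hW]
    rw [e3, e1, e4, h k, sub_self])
  intro τ hτ
  have hmem : (τ : ℂ) ∈ s.image (fun τ : ℝ => (τ : ℂ)) :=
    Finset.mem_image_of_mem (fun τ : ℝ => (τ : ℂ)) hτ
  have h1 := hu (τ : ℂ) (Finset.mem_union_left _ hmem)
  have h2 : a (τ : ℂ) = (w τ : ℂ) := by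
    rw [ha]
    simp only [if_pos hmem, Complex.ofReal_re]
  simp only [h2] at h1
  refine ⟨D⁻¹ * ∑ W ∈ E, d W * (if (τ : ℂ) ∈ t W then (n W τ : ℚ) else 0), ?_⟩
  have hD' : (D : ℂ) ≠ 0 := by exact_mod_cast hD
  apply Complex.ofReal_injective
  have h3 : (w τ : ℂ) = (D : ℂ)⁻¹ * ∑ W ∈ E, (d W : ℂ) * b W τ := by
    field_simp
    linear_combination h1
  rw [h3]
  push_cast
  congr 1
  refine Finset.sum_congr rfl fun W _ => ?_
  congr 1
  rw [hb]
  simp only
  split_ifs <;> simp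

end Pool.Agent.ST5
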