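import Mathlib

/-!
ST5 row F4. Perron-Frobenius eigenvectors are rational.

SETTING. G symmetric with natural entries on the finite set J, bipartite with respect to the
parity of a : J → ℕ; o ∈ J with a o = 0; every vertex i is joined to o by a walk of length a i;
d > 0, d o = 1, G d = δ d and δ² = q rational.
CLAIM. d i is rational if a i is even; (d i)² is rational for every i.

PROOF. Let B := G² (natural, symmetric), B d = q d (q = δ²). First, the space of real vectors x
supported on the even vertices with B x = q x is one-dimensional: for such x,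
0 = ∑_{i,j} B i j d i d j (x i / d i - x j / d j)² [expand: each square term gives
∑_i (x i²/d i) ∑_j B i j d j = q ∑ x i², the cross term -2 ∑ x i (B x) i = -2 q ∑ x i²], so
x i / d i = x j / d j whenever B i j ≠ 0; by the walks of length a i (even) from o, cut into steps
of length 2, x i / d i = x o / d o for every even i, so x = x o • d on the even vertices.
Second, the linear system (B x = q x, x i = 0 for odd i) has rational coefficients; the real
solution space is one-dimensional and contains a vector with x o = 1, so there is a rational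
solution with x o = 1 (e.g.: choose a ℚ-basis / a ℚ-linear functional argument: write
ℝ as a ℚ-vector space and choose a ℚ-linear projection φ : ℝ → ℚ with φ 1 = 1 (`Module.Free`/
`exists_leftInverse_of_injective`); y i := φ (d i) for even i, 0 for odd i: as the coefficients
are rational, B y = q y, and y o = φ 1 = 1. Then y = d on the even vertices by the first step.)
So d i = y i is rational for even i. For odd i: (δ * d i) = ∑_j G i j d j is a sum over even j, so
rational, and (d i)² = (δ d i)² / q (δ ≠ 0 because δ * d o = ∑ ..., or because δ = 0 would give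
G d = 0, so G i j = 0 for all i, j: then there are no odd vertices reachable; treat: if δ = 0 then
for odd i the walk of length a i ≥ 1 from o contradicts G = 0).
-/

namespace Pool.Agent.ST5

theorem F4_proj : ∃ g : ℝ →ₗ[ℚ] ℚ, g 1 = 1 := by
  obtain ⟨g, hg⟩ := LinearMap.exists_leftInverse_of_injective (LinearMap.toSpanSingleton ℚ ℝ 1)
    (LinearMap.ker_toSpanSingleton ℚ one_ne_zero)
  refine ⟨g, ?_⟩
  have h := congrArg (fun f : ℚ →ₗ[ℚ] ℚ => f 1) hg
  simpa using h

theorem F4_pf {J : Type*} [Fintype J] (A : J → J → ℝ) (h0 : ∀ i j, 0 ≤ A i j)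
    (hs : ∀ i j, A i j = A j i) (d y : J → ℝ) (hd : ∀ i, 0 < d i) (q : ℝ)
    (hAd : ∀ i, ∑ j, A i j * d j = q * d i) (hAy : ∀ i, ∑ j, A i j * y j = q * y i) (i j : J)
    (hij : A i j ≠ 0) : y i / d i = y j / d j := by
  have hterm : ∀ i j, A i j * (d i * d j * (y i / d i - y j / d j) ^ 2) =
      (A i j * d j) * (y i ^ 2 / d i) + (A j i * d i) * (y j ^ 2 / d j) - 2 * ((A i j * y j) * y i) := by
    intro i j
    have h1 := (hd i).ne'
    have h2 := (hd j).ne'
    rw [hs j i]
    field_simp
    ring
  have hsum1 : ∑ i, ∑ j, (A i j * d j) * (y i ^ 2 / d i) = q * ∑ i, y i ^ 2 := by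
    rw [Finset.mul_sum]
    refine Finset.sum_congr rfl fun i _ => ?_
    rw [← Finset.sum_mul, hAd i]
    have h1 := (hd i).ne'
    field_simp
  have hsum2 : ∑ i, ∑ j, (A j i * d i) * (y j ^ 2 / d j) = q * ∑ i, y i ^ 2 := by
    rw [Finset.sum_comm]
    exact hsum1
  have hsum3 : ∑ i, ∑ j, 2 * ((A i j * y j) * y i) = 2 * (q * ∑ i, y i ^ 2) := by
    rw [Finset.mul_sum, Finset.mul_sum]
    refine Finset.sum_congr rfl fun i _ => ?_
    rw [← Finset.mul_sum, ← Finset.sum_mul, hAy i]
    ring
  have hkey : ∑ i, ∑ j, A i j * (d i * d j * (y i / d i - y j / d j) ^ 2) = 0 := by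
    rw [Finset.sum_congr rfl fun i _ => Finset.sum_congr rfl fun j _ => hterm i j]
    simp only [Finset.sum_sub_distrib, Finset.sum_add_distrib]
    rw [hsum1, hsum2, hsum3]
    ring
  have hnn : ∀ i j, 0 ≤ A i j * (d i * d j * (y i / d i - y j / d j) ^ 2) := fun i j =>
    mul_nonneg (h0 i j) (mul_nonneg (mul_nonneg (hd i).le (hd j).le) (sq_nonneg _))
  rw [Finset.sum_eq_zero_iff_of_nonneg
    (fun i _ => Finset.sum_nonneg fun j _ => hnn i j)] at hkey
  have h1 := hkey i (Finset.mem_univ i)
  rw [Finset.sum_eq_zero_iff_of_nonneg (fun j _ => hnn i j)] at h1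
  have h2 := h1 j (Finset.mem_univ j)
  rcases mul_eq_zero.1 h2 with h3 | h3
  · exact absurd h3 hij
  · rcases mul_eq_zero.1 h3 with h4 | h4
    · exact absurd h4 (mul_pos (hd i) (hd j)).ne'
    · have h5 := pow_eq_zero_iff (two_ne_zero) |>.1 h4
      linarith

theorem pf_rational {J : Type*} [Fintype J] [DecidableEq J] (a : J → ℕ) (G : Matrix J J ℕ)
    (hsym : ∀ i j, G i j = G j i) (hbip : ∀ i j, G i j ≠ 0 → (a i + a j) % 2 = 1) (o : J)
    (ho : a o = 0) (d : J → ℝ) (hd : ∀ i, 0 < d i) (hdo : d o = 1) (δ : ℝ)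
    (hPF : ∀ i, ∑ j, (G i j : ℝ) * d j = δ * d i) (hconn : ∀ i, (G ^ (a i)) o i ≠ 0) (q : ℚ)
    (hq : δ ^ 2 = q) :
    (∀ i, a i % 2 = 0 → ∃ y : ℚ, d i = y) ∧ ∀ i, ∃ y : ℚ, (d i) ^ 2 = y := by
  obtain ⟨g, hg⟩ := F4_proj
  have hB : ∀ i, ∑ k, (((G * G) i k : ℕ) : ℝ) * d k = q * d i := by
    intro i
    calc ∑ k, (((G * G) i k : ℕ) : ℝ) * d k = ∑ k, ∑ j, (G i j : ℝ) * (G j k : ℝ) * d k := by
          refine Finset.sum_congr rfl fun k _ => ?_
          rw [Matrix.mul_apply, Nat.cast_sum, Finset.sum_mul]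
          refine Finset.sum_congr rfl fun j _ => ?_
          rw [Nat.cast_mul]
      _ = ∑ j, (G i j : ℝ) * (δ * d j) := by
          rw [Finset.sum_comm]
          refine Finset.sum_congr rfl fun j _ => ?_
          rw [← hPF j, Finset.mul_sum]
          exact Finset.sum_congr rfl fun k _ => mul_assoc _ _ _
      _ = δ * (δ * d i) := by
          rw [← hPF i, Finset.mul_sum]
          exact Finset.sum_congr rfl fun j _ => by ring
      _ = q * d i := by
          rw [← hq]
          ring
  have hBy : ∀ i, ∑ k, (((G * G) i k : ℕ) : ℝ) * ((g (d k) : ℚ) : ℝ) = q * ((g (d i) : ℚ) : ℝ) := by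
    intro i
    have h1 := congrArg g (hB i)
    rw [map_sum, ← Rat.smul_def, map_smul, smul_eq_mul] at h1
    have h2 : ∀ k, g ((((G * G) i k : ℕ) : ℝ) * d k) = (((G * G) i k : ℕ) : ℚ) * g (d k) := by
      intro k
      rw [← nsmul_eq_mul, map_nsmul, nsmul_eq_mul]
    rw [Finset.sum_congr rfl fun k _ => h2 k] at h1
    have h3 := congrArg (fun x : ℚ => (x : ℝ)) h1
    push_cast at h3
    exact h3
  have hsymB : ∀ i j, (G * G) i j = (G * G) j i := by
    intro i j
    rw [Matrix.mul_apply, Matrix.mul_apply]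
    refine Finset.sum_congr rfl fun k _ => ?_
    rw [hsym i k, hsym k j, mul_comm]
  have hstep : ∀ i j, (G * G) i j ≠ 0 → ((g (d i) : ℚ) : ℝ) / d i = ((g (d j) : ℚ) : ℝ) / d j := by
    intro i j hij
    refine F4_pf (fun i j => (((G * G) i j : ℕ) : ℝ)) (fun i j => Nat.cast_nonneg _)
      (fun i j => by rw [hsymB i j]) d (fun i => ((g (d i) : ℚ) : ℝ)) hd q hB hBy i j ?_
    exact_mod_cast hij
  have hwalk : ∀ (n : ℕ) (i : J), ((G * G) ^ n) o i ≠ 0 → ((g (d i) : ℚ) : ℝ) / d i = 1 := by
    intro n
    induction n with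
    | zero =>
      intro i hi
      rw [pow_zero] at hi
      have h1 : o = i := by
        by_contra h
        exact hi (Matrix.one_apply_ne h)
      rw [← h1, hdo, hg]
      norm_num
    | succ n ih =>
      intro i hi
      rw [pow_succ, Matrix.mul_apply] at hi
      obtain ⟨j, _, hj⟩ := Finset.exists_ne_zero_of_sum_ne_zero hi
      have h1 := ih j (left_ne_zero_of_mul hj)
      have h2 := hstep j i (right_ne_zero_of_mul hj)
      rw [← h2, h1]
  have heven : ∀ i, a i % 2 = 0 → d i = (g (d i) : ℚ) := by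
    intro i hi
    have h1 : ((G * G) ^ (a i / 2)) o i ≠ 0 := by
      rw [← pow_two, ← pow_mul, show 2 * (a i / 2) = a i by omega]
      exact hconn i
    have h2 := hwalk _ i h1
    rw [div_eq_one_iff_eq (hd i).ne'] at h2
    exact h2.symm
  refine ⟨fun i hi => ⟨g (d i), heven i hi⟩, fun i => ?_⟩
  rcases Nat.mod_two_eq_zero_or_one (a i) with hi | hi
  · refine ⟨(g (d i)) ^ 2, ?_⟩
    push_cast
    rw [← heven i hi]
  · have h1 : δ * d i = ((∑ j, (G i j : ℚ) * g (d j) : ℚ) : ℝ) := by
      rw [← hPF i]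
      push_cast
      refine Finset.sum_congr rfl fun j _ => ?_
      by_cases h : G i j = 0
      · rw [h]
        simp
      · rw [← heven j (by have := hbip i j h; omega)]
    by_cases hq0 : q = 0
    · exfalso
      rw [hq0, Rat.cast_zero] at hq
      have hδ : δ = 0 := by
        exact pow_eq_zero_iff (two_ne_zero) |>.1 hq
      have hG : ∀ k j, G k j = 0 := by
        intro k j
        have h2 := hPF k
        rw [hδ, zero_mul] at h2
        rw [Finset.sum_eq_zero_iff_of_nonneg
          (fun j _ => mul_nonneg (Nat.cast_nonneg _) (hd j).le)] at h2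
        have h3 := h2 j (Finset.mem_univ j)
        rcases mul_eq_zero.1 h3 with h4 | h4
        · exact_mod_cast h4
        · exact absurd h4 (hd j).ne'
      have h5 : G = 0 := Matrix.ext hG
      have h6 := hconn i
      rw [h5, zero_pow (by omega)] at h6
      exact h6 rfl
    · refine ⟨(∑ j, (G i j : ℚ) * g (d j)) ^ 2 / q, ?_⟩
      have hq1 : (q : ℝ) ≠ 0 := by exact_mod_cast hq0
      rw [Rat.cast_div, Rat.cast_pow, ← h1, eq_div_iff hq1, mul_pow, hq]
      ring

end Pool.Agent.ST5
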