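import Mathlib

/-!
ST5 row F5a. A finite family of real algebraic integers whose power sums are rational is the
family of roots of an integer polynomial.

PROOF. (1) Newton's identities (`MvPolynomial.mul_esymm_eq_sum` / `Multiset` versions; Mathlib:
`MvPolynomial.mul_esymm_eq_sum`, `Multiset.esymm`, `Multiset.prod_X_sub_C_coeff...`) show by
strong induction that all elementary symmetric functions of the family (with multiplicities n τ)
are rational, so the polynomial ∏ (X - C τ)^(n τ) has rational coefficients. Other way without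
Newton: let K = AlgebraicClosure ℚ or work in ℂ with an automorphism: moments invariant under
σ ⇒ by Vandermonde the multiset is invariant.
Use the index type ι := Σ τ ∈ s, Fin (n τ) and the family x : ι → ℝ; F = ∏ i, (X - C (x i)).
(2) each coefficient is a polynomial with integer coefficients in the integral elements τ, so it
is integral over ℤ (`IsIntegral.prod`, or: the coefficients lie in `integralClosure ℤ ℝ`, via
F = image of the polynomial ∏ (X - C ⟨τ, _⟩) over the subring `integralClosure ℤ ℝ`), and rational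
and integral implies integer (`IsIntegrallyClosed.isIntegral_iff`, `IsIntegral ℤ (y : ℚ)` from
`isIntegral_algebraMap_iff`).
-/

namespace Pool.Agent.ST5

open Polynomial in
/-- the elementary symmetric functions are rational if the power sums are (Newton) -/
theorem F5a_esymm {ι : Type} [Fintype ι] (x : ι → ℝ) (hp : ∀ k : ℕ, ∃ y : ℚ, ∑ i, x i ^ k = y) (k : ℕ) :
    ∃ y : ℚ, MvPolynomial.aeval x (MvPolynomial.esymm ι ℝ k) = y := by
  classical
  induction k using Nat.strong_induction_on with
  | _ k ih =>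
    rcases Nat.eq_zero_or_pos k with rfl | hk
    · refine ⟨1, ?_⟩
      rw [MvPolynomial.esymm_zero, map_one, Rat.cast_one]
    · have h := congrArg (MvPolynomial.aeval x) (MvPolynomial.mul_esymm_eq_sum ι ℝ k)
      rw [map_mul, map_natCast, map_mul, map_pow, map_neg, map_one, map_sum] at h
      have hs : ∀ a ∈ (Finset.HasAntidiagonal.antidiagonal k).filter (fun a => a.1 < k), ∃ y : ℚ,
          MvPolynomial.aeval x ((-1) ^ a.1 * MvPolynomial.esymm ι ℝ a.1 * MvPolynomial.psum ι ℝ a.2) = y := by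
        intro a ha
        obtain ⟨y1, h1⟩ := ih a.1 (Finset.mem_filter.1 ha).2
        obtain ⟨y2, h2⟩ := hp a.2
        refine ⟨(-1) ^ a.1 * y1 * y2, ?_⟩
        have h3 : MvPolynomial.aeval x (MvPolynomial.psum ι ℝ a.2) = ∑ i, x i ^ a.2 := by
          rw [MvPolynomial.psum, map_sum]
          simp
        rw [map_mul, map_mul, map_pow, map_neg, map_one, h1, h3, h2]
        push_cast
        ring
      choose! y hy using hs
      rw [Finset.sum_congr rfl hy] at h
      have hk0 : (k : ℝ) ≠ 0 := by exact_mod_cast hk.ne'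
      refine ⟨(-1) ^ (k + 1) * (∑ a ∈ (Finset.HasAntidiagonal.antidiagonal k).filter (fun a => a.1 < k), y a) / k, ?_⟩
      push_cast
      rw [eq_div_iff hk0, mul_comm, h]

open Polynomial in
theorem exists_int_poly (s : Finset ℝ) (n : ℝ → ℕ) (hint : ∀ τ ∈ s, IsIntegral ℤ τ)
    (hmom : ∀ k : ℕ, ∃ y : ℚ, ∑ τ ∈ s, (n τ : ℝ) * τ ^ k = y) :
    ∃ f : ℤ[X], f.map (Int.castRingHom ℝ) = ∏ τ ∈ s, (X - C τ) ^ (n τ) := by
  classical
  have hF : ∀ F : ℝ[X], (∀ k, ∃ z : ℤ, F.coeff k = z) → ∃ f : ℤ[X], f.map (Int.castRingHom ℝ) = F := by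
    intro F h
    have h1 : F ∈ Polynomial.lifts (Int.castRingHom ℝ) := by
      rw [Polynomial.lifts_iff_coeff_lifts]
      intro k
      obtain ⟨z, hz⟩ := h k
      exact ⟨z, by rw [hz]; simp⟩
    exact Polynomial.mem_lifts _ |>.1 h1
  apply hF
  intro k
  -- integrality
  have hint2 : IsIntegral ℤ ((∏ τ ∈ s, (X - C τ) ^ (n τ)).coeff k) := by
    have h1 : ∏ τ ∈ s, (X - C τ) ^ (n τ) = (∏ τ ∈ s.attach,
        (X - C (⟨τ.1, hint τ.1 τ.2⟩ : integralClosure ℤ ℝ)) ^ (n τ.1)).map (algebraMap (integralClosure ℤ ℝ) ℝ) := by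
      rw [Polynomial.map_prod, ← Finset.prod_attach]
      refine Finset.prod_congr rfl fun τ _ => ?_
      rw [Polynomial.map_pow, Polynomial.map_sub, Polynomial.map_X, Polynomial.map_C]
      rfl
    rw [h1, Polynomial.coeff_map]
    exact (Polynomial.coeff _ k : integralClosure ℤ ℝ).2
  -- rationality
  have hrat : ∃ y : ℚ, ((∏ τ ∈ s, (X - C τ) ^ (n τ) : ℝ[X]).coeff k) = (y : ℝ) := by
    let x : (Σ τ : s, Fin (n τ.1)) → ℝ := fun i => i.1.1
    have hp : ∀ k : ℕ, ∃ y : ℚ, ∑ i, x i ^ k = y := by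
      intro k
      obtain ⟨y, hy⟩ := hmom k
      refine ⟨y, ?_⟩
      rw [← hy, Fintype.sum_sigma, ← Finset.sum_coe_sort s]
      refine Finset.sum_congr rfl fun τ _ => ?_
      simp [x]
    have hprod : ∏ τ ∈ s, (X - C τ) ^ (n τ) = (Multiset.map (fun t => X - C t) (Finset.univ.val.map x)).prod := by
      rw [Multiset.map_map]
      show _ = ∏ i, (X - C (x i))
      rw [Fintype.prod_sigma, ← Finset.prod_coe_sort s]
      refine Finset.prod_congr rfl fun τ _ => ?_
      simp [x]
    have he := F5a_esymm x hp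
    rw [hprod, Multiset.prod_X_sub_X_eq_sum_esymm, Polynomial.finsetSum_coeff]
    have hj : ∀ j ∈ Finset.range ((Finset.univ.val.map x).card + 1), ∃ y : ℚ,
        (((-1) ^ j * (C ((Finset.univ.val.map x).esymm j) * X ^ ((Finset.univ.val.map x).card - j)) : ℝ[X])).coeff k = y := by
      intro j _
      obtain ⟨y, hy⟩ := he j
      rw [MvPolynomial.aeval_esymm_eq_multiset_esymm] at hy
      rw [hy]
      refine ⟨(-1) ^ j * (y * if k = (Finset.univ.val.map x).card - j then 1 else 0), ?_⟩
      have h2 : ((-1 : ℝ[X]) ^ j) = C ((-1) ^ j) := by simp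
      rw [h2, Polynomial.coeff_C_mul, Polynomial.coeff_C_mul, Polynomial.coeff_X_pow]
      split_ifs <;> push_cast <;> rfl
    choose! y hy using hj
    refine ⟨∑ j ∈ Finset.range ((Finset.univ.val.map x).card + 1), y j, ?_⟩
    rw [Finset.sum_congr rfl hy]
    push_cast
    rfl
  obtain ⟨y, hy⟩ := hrat
  rw [hy] at hint2 ⊢
  have h3 : IsIntegral ℤ y := by
    have h4 : IsIntegral ℤ (algebraMap ℚ ℝ y) := by simpa using hint2
    exact (isIntegral_algebraMap_iff (algebraMap ℚ ℝ).injective).1 h4
  obtain ⟨z, hz⟩ := IsIntegrallyClosed.isIntegral_iff.1 h3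
  refine ⟨z, ?_⟩
  rw [← hz]
  simp

end Pool.Agent.ST5
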