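import Mathlib
import Pool.Agent.ST5.F.F5a

/-!
ST5 row F5b. The logarithmic inequality for a Galois-invariant measure.

PROOF. (N) natural weights: let f be the integer polynomial of `exists_int_poly`. Put
f₁ := ∏_{τ ∈ s, τ ≠ 0, τ ≠ 1} (X - C τ)^(n τ), so f = X^(n 0 if 0 ∈ s) * (X-1)^(n 1 if 1 ∈ s) * f₁ over ℝ.
Dividing the integer polynomial f by the monic integer polynomial X^a (X-1)^b
(`Polynomial.modByMonic`, or `Polynomial.map_dvd_map` for monic divisors, or: f₁ has integer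
coefficients again by `exists_int_poly`, applied to the smaller finset s.filter (· ≠ 0 ∧ · ≠ 1):
its power sums are those of s minus integers: THIS IS THE EASIEST WAY). So f₁ comes from an integer
polynomial g; g(0) and g(1) are integers, nonzero (products of nonzero factors), so
|g(0)| >= 1, |g(1)| >= 1, i.e. ∏ |τ|^(n τ) >= 1 and ∏ |τ - 1|^(n τ) >= 1 over τ ≠ 0, 1; take
logarithms (`Real.log_prod`, `Real.log_pow`) and add.
(R) rational weights: multiply by a common denominator c > 0 of the w τ, τ ∈ s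
(c = ∏ τ ∈ s, (w τ).den), n τ := (c * w τ).num.toNat, then divide by c.
-/

namespace Pool.Agent.ST5

open Polynomial in
theorem f5b_eval (s : Finset ℝ) (n : ℝ → ℕ) (f : ℤ[X])
    (hf : f.map (Int.castRingHom ℝ) = ∏ τ ∈ s, (X - C τ) ^ (n τ)) (x : ℤ) (hx : ∀ τ ∈ s, τ ≠ (x : ℝ)) :
    0 ≤ ∑ τ ∈ s, (n τ : ℝ) * Real.log |(x : ℝ) - τ| := by
  have h1 : ((f.eval x : ℤ) : ℝ) = ∏ τ ∈ s, ((x : ℝ) - τ) ^ (n τ) := by
    have h2 : (f.map (Int.castRingHom ℝ)).eval (x : ℝ) = ((f.eval x : ℤ) : ℝ) := by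
      simp
    rw [← h2, hf, Polynomial.eval_prod]
    refine Finset.prod_congr rfl fun τ _ => ?_
    simp
  have h3 : ∏ τ ∈ s, ((x : ℝ) - τ) ^ (n τ) ≠ 0 := by
    refine Finset.prod_ne_zero_iff.2 fun τ hτ => pow_ne_zero _ ?_
    exact sub_ne_zero.2 (hx τ hτ).symm
  have h4 : (1 : ℝ) ≤ |∏ τ ∈ s, ((x : ℝ) - τ) ^ (n τ)| := by
    rw [← h1] at h3 ⊢
    have h5 : f.eval x ≠ 0 := by
      intro h
      rw [h] at h3
      simp at h3
    have h6 : 1 ≤ |f.eval x| := Int.one_le_abs h5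
    exact_mod_cast h6
  have h7 : Real.log |∏ τ ∈ s, ((x : ℝ) - τ) ^ (n τ)| = ∑ τ ∈ s, (n τ : ℝ) * Real.log |(x : ℝ) - τ| := by
    rw [Finset.abs_prod, Real.log_prod (fun τ hτ => ?_)]
    · refine Finset.sum_congr rfl fun τ _ => ?_
      rw [abs_pow, Real.log_pow]
    · rw [abs_pow]
      exact pow_ne_zero _ (abs_ne_zero.2 (sub_ne_zero.2 (hx τ hτ).symm))
  rw [← h7]
  exact Real.log_nonneg h4

theorem f5b_nat (s : Finset ℝ) (n : ℝ → ℕ) (hint : ∀ τ ∈ s, IsIntegral ℤ τ)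
    (hmom : ∀ k : ℕ, ∃ y : ℚ, ∑ τ ∈ s, (n τ : ℝ) * τ ^ k = y) :
    0 ≤ ∑ τ ∈ s.filter (fun τ => τ ≠ 0 ∧ τ ≠ 1), (n τ : ℝ) * Real.log |τ * (τ - 1)| := by
  have hmom' : ∀ k : ℕ, ∃ y : ℚ, ∑ τ ∈ s.filter (fun τ => τ ≠ 0 ∧ τ ≠ 1), (n τ : ℝ) * τ ^ k = y := by
    intro k
    obtain ⟨y, hy⟩ := hmom k
    rw [← Finset.sum_filter_add_sum_filter_not s (fun τ => τ ≠ 0 ∧ τ ≠ 1)] at hy
    have h1 : ∃ z : ℚ, ∑ τ ∈ s.filter (fun τ => ¬ (τ ≠ 0 ∧ τ ≠ 1)), (n τ : ℝ) * τ ^ k = z := by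
      refine ⟨∑ τ ∈ s.filter (fun τ => ¬ (τ ≠ 0 ∧ τ ≠ 1)), (n τ : ℚ) * (if τ = 0 then 0 ^ k else 1), ?_⟩
      push_cast
      refine Finset.sum_congr rfl fun τ hτ => ?_
      have h2 := (Finset.mem_filter.1 hτ).2
      by_cases h0 : τ = 0
      · rw [if_pos h0, h0]
        push_cast
        rfl
      · rw [if_neg h0]
        have h3 : τ = 1 := by
          by_contra h3
          exact h2 ⟨h0, h3⟩
        rw [h3, one_pow]
        push_cast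
        rfl
    obtain ⟨z, hz⟩ := h1
    refine ⟨y - z, ?_⟩
    push_cast
    rw [← hy, ← hz]
    ring
  obtain ⟨f, hf⟩ := exists_int_poly (s.filter (fun τ => τ ≠ 0 ∧ τ ≠ 1)) n
    (fun τ hτ => hint τ (Finset.mem_filter.1 hτ).1) hmom'
  have h0 := f5b_eval _ n f hf 0 (fun τ hτ => by simpa using (Finset.mem_filter.1 hτ).2.1)
  have h1 := f5b_eval _ n f hf 1 (fun τ hτ => by simpa using (Finset.mem_filter.1 hτ).2.2)
  have h2 : ∑ τ ∈ s.filter (fun τ => τ ≠ 0 ∧ τ ≠ 1), (n τ : ℝ) * Real.log |τ * (τ - 1)| =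
      ∑ τ ∈ s.filter (fun τ => τ ≠ 0 ∧ τ ≠ 1), (n τ : ℝ) * Real.log |((0 : ℤ) : ℝ) - τ| +
      ∑ τ ∈ s.filter (fun τ => τ ≠ 0 ∧ τ ≠ 1), (n τ : ℝ) * Real.log |((1 : ℤ) : ℝ) - τ| := by
    rw [← Finset.sum_add_distrib]
    refine Finset.sum_congr rfl fun τ hτ => ?_
    obtain ⟨h3, h4⟩ := (Finset.mem_filter.1 hτ).2
    rw [abs_mul, Real.log_mul (abs_ne_zero.2 h3) (abs_ne_zero.2 (sub_ne_zero.2 h4))]
    have h5 : |((0 : ℤ) : ℝ) - τ| = |τ| := by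
      rw [Int.cast_zero, zero_sub, abs_neg]
    have h6 : |((1 : ℤ) : ℝ) - τ| = |τ - 1| := by
      rw [Int.cast_one, abs_sub_comm]
    rw [h5, h6]
    ring
  rw [h2]
  exact add_nonneg h0 h1

theorem log_inequality (s : Finset ℝ) (w : ℝ → ℚ) (hw : ∀ τ ∈ s, 0 ≤ w τ)
    (hint : ∀ τ ∈ s, IsIntegral ℤ τ)
    (hmom : ∀ k : ℕ, ∃ y : ℚ, ∑ τ ∈ s, (w τ : ℝ) * τ ^ k = y) :
    0 ≤ ∑ τ ∈ s.filter (fun τ => τ ≠ 0 ∧ τ ≠ 1), (w τ : ℝ) * Real.log |τ * (τ - 1)| := by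
  set c : ℕ := ∏ τ ∈ s, (w τ).den with hc
  have hc0 : 0 < c := Finset.prod_pos fun τ _ => (w τ).den_pos
  have hnum : ∀ τ ∈ s, ∃ m : ℕ, (m : ℚ) = (c : ℚ) * w τ := by
    intro τ hτ
    obtain ⟨k, hk⟩ := Finset.dvd_prod_of_mem (fun τ => (w τ).den) hτ
    have h1 : (0 : ℤ) ≤ (w τ).num := Rat.num_nonneg.2 (hw τ hτ)
    refine ⟨k * (w τ).num.toNat, ?_⟩
    have h2 : (((w τ).num.toNat : ℕ) : ℚ) = ((w τ).num : ℚ) := by
      have := Int.toNat_of_nonneg h1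
      exact_mod_cast this
    have h3 : ((w τ).den : ℚ) * w τ = ((w τ).num : ℚ) := by
      rw [mul_comm]
      exact Rat.mul_den_eq_num (w τ)
    have h4 : (c : ℚ) = ((w τ).den : ℚ) * k := by
      rw [hc, hk]
      push_cast
      ring
    rw [h4]
    push_cast
    rw [h2, ← h3]
    ring
  have hex : ∀ τ : ℝ, ∃ m : ℕ, τ ∈ s → (m : ℚ) = (c : ℚ) * w τ := by
    intro τ
    by_cases hτ : τ ∈ s
    · obtain ⟨m, hm⟩ := hnum τ hτ
      exact ⟨m, fun _ => hm⟩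
    · exact ⟨0, fun h => absurd h hτ⟩
  choose n hn using hex
  have hn' : ∀ τ ∈ s, (n τ : ℝ) = (c : ℝ) * (w τ : ℝ) := by
    intro τ hτ
    have := hn τ hτ
    exact_mod_cast this
  have hmom' : ∀ k : ℕ, ∃ y : ℚ, ∑ τ ∈ s, (n τ : ℝ) * τ ^ k = y := by
    intro k
    obtain ⟨y, hy⟩ := hmom k
    refine ⟨c * y, ?_⟩
    push_cast
    rw [← hy, Finset.mul_sum]
    refine Finset.sum_congr rfl fun τ hτ => ?_
    rw [hn' τ hτ]
    ring
  have h1 := f5b_nat s n hint hmom'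
  have h2 : ∑ τ ∈ s.filter (fun τ => τ ≠ 0 ∧ τ ≠ 1), (n τ : ℝ) * Real.log |τ * (τ - 1)| =
      (c : ℝ) * ∑ τ ∈ s.filter (fun τ => τ ≠ 0 ∧ τ ≠ 1), (w τ : ℝ) * Real.log |τ * (τ - 1)| := by
    rw [Finset.mul_sum]
    refine Finset.sum_congr rfl fun τ hτ => ?_
    rw [hn' τ (Finset.mem_filter.1 hτ).1]
    ring
  rw [h2] at h1
  have hc1 : (0 : ℝ) < c := by exact_mod_cast hc0
  exact nonneg_of_mul_nonneg_right h1 hc1

end Pool.Agent.ST5
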