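import Mathlib

/-!
ST5 row F6. The certificate: 24 log |x (x-1)| is at most the polynomial
q(x) = 5x^6-60x^5+277x^4-613x^3+654x^2-263x+1 for x > 0, x ≠ 1.

PROOF. log y ≤ log c + (y - c)/c for y, c > 0 (`Real.log_le_sub_one_of_pos` for y/c). Three cases.
* 0 < x < 1: c = 3/8 for x, 5/8 for 1-x: log x + log (1-x) ≤ log(15/64) + (x-3/8)*(8/3) - (x-3/8)*(8/5)
  (numerically log(15/64) = -1.45083); the polynomial inequality
  q(x) ≥ 24*(L0 + (x-3/8)*16/15) holds on [0,1] with margin 1.8 (L0 any rational upper bound of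
  log(15/64), e.g. -1.44: exp(-1.44) > 15/64).
* 1 < x ≤ 14/5: c = 13/6 for x, 7/6 for x-1: log x + log (x-1) ≤ log(91/36) + (x-13/6)*(6/13+6/7),
  log(91/36) = 0.92730 ≤ 0.93; margin 24*0.0338 = 0.81 with the exact log, use 0.93 (costs 0.065).
* x ≥ 14/5: c = 7/2 for x, 5/2 for x-1: log x + log(x-1) ≤ log(35/4) + (x-7/2)*(2/7+2/5),
  log(35/4) = 2.16905 ≤ 2.18; margin 2.5.
The polynomial inequalities: degree 6 on an interval, by nlinarith with hints, or by
subdivision (write x = x0 + t on short intervals, Bernstein/positive coefficients after the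
substitution), or as sums of squares. The bounds on the logs: `Real.log_le_iff_le_exp`/
`Real.exp_one_lt_d9`, `Real.add_pow_le_pow_mul_pow_of_sq_le_sq`..., e.g. log(91/36) ≤ 0.93 via
`Real.log_le_sub_one_of_pos` on 91/36 / e^{1}... or via
exp(0.93) ≥ ∑ 0.93^k/k! (`Real.sum_le_exp_of_nonneg`).
-/

namespace Pool.Agent.ST5

theorem certAux_bern (u v c0 c1 c2 c3 c4 c5 c6 : ℝ) (hu : 0 ≤ u) (hv : 0 ≤ v)
    (h0 : 0 ≤ c0) (h1 : 0 ≤ c1) (h2 : 0 ≤ c2) (h3 : 0 ≤ c3) (h4 : 0 ≤ c4) (h5 : 0 ≤ c5)
    (h6 : 0 ≤ c6) :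
    0 ≤ c0 * v ^ 6 + c1 * (u * v ^ 5) + c2 * (u ^ 2 * v ^ 4) + c3 * (u ^ 3 * v ^ 3)
      + c4 * (u ^ 4 * v ^ 2) + c5 * (u ^ 5 * v) + c6 * u ^ 6 := by
  positivity

theorem certAux_log (y c : ℝ) (hy : 0 < y) (hc : 0 < c) :
    Real.log y ≤ Real.log c + (y - c) / c := by
  have h : Real.log (y / c) ≤ y / c - 1 := Real.log_le_sub_one_of_pos (div_pos hy hc)
  rw [Real.log_div hy.ne' hc.ne'] at h
  have e : (y - c) / c = y / c - 1 := by
    field_simp
  rw [e]
  linarith

theorem certAux_l1 : Real.log (3 / 8) + Real.log (5 / 8) ≤ -(144 / 100) := by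
  have h2 := Real.log_two_gt_d9
  have e : Real.log (3 / 8) + Real.log (5 / 8) = Real.log (15 / 16) - 2 * Real.log 2 := by
    rw [← Real.log_mul (by norm_num) (by norm_num)]
    have e2 : (2 : ℝ) * Real.log 2 = Real.log 4 := by
      rw [show (4 : ℝ) = 2 ^ 2 by norm_num, Real.log_pow]
      norm_num
    rw [e2, ← Real.log_div (by norm_num) (by norm_num)]
    norm_num
  have h := Real.log_le_sub_one_of_pos (show (0 : ℝ) < 15 / 16 by norm_num)
  rw [e]
  linarith

theorem certAux_l2 : Real.log (13 / 6) + Real.log (7 / 6) ≤ 93 / 100 := by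
  have he := Real.exp_one_gt_d9
  have e : Real.log (13 / 6) + Real.log (7 / 6) = Real.log (91 / 36) := by
    rw [← Real.log_mul (by norm_num) (by norm_num)]
    norm_num
  have h := certAux_log (91 / 36) (Real.exp 1) (by norm_num) (Real.exp_pos 1)
  rw [Real.log_exp] at h
  have h3 : (91 / 36 - Real.exp 1) / Real.exp 1 ≤ -(7 / 100) := by
    rw [div_le_iff₀ (Real.exp_pos 1)]
    linarith
  rw [e]
  linarith

theorem certAux_l3 : Real.log (7 / 2) + Real.log (5 / 2) ≤ 218 / 100 := by
  have h2 := Real.log_two_lt_d9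
  have e : Real.log (7 / 2) + Real.log (5 / 2) = Real.log (35 / 32) + 3 * Real.log 2 := by
    rw [← Real.log_mul (by norm_num) (by norm_num)]
    have e2 : (3 : ℝ) * Real.log 2 = Real.log 8 := by
      rw [show (8 : ℝ) = 2 ^ 3 by norm_num, Real.log_pow]
      norm_num
    rw [e2, ← Real.log_mul (by norm_num) (by norm_num)]
    norm_num
  have h := Real.log_le_sub_one_of_pos (show (0 : ℝ) < 35 / 32 by norm_num)
  rw [e]
  linarith

theorem certAux_p1 (x : ℝ) (hlo : (0) ≤ x) (hhi : x ≤ (1)) :
    (-1104 / 25) + (128 / 5) * x ≤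
      5 * x ^ 6 - 60 * x ^ 5 + 277 * x ^ 4 - 613 * x ^ 3 + 654 * x ^ 2 - 263 * x + 1 := by
  rcases le_total x (1 / 2) with h | h
  · have hB := certAux_bern (x - (0)) ((1 / 2) - x) (72256 / 25) (202656 / 25) (38208 / 5) (12024 / 5) (908 / 5) (10136 / 25) (5201 / 25) (by linarith) (by linarith) (by norm_num) (by norm_num) (by norm_num) (by norm_num) (by norm_num) (by norm_num) (by norm_num)
    linarith
  · have hB := certAux_bern (x - (1 / 2)) ((1) - x) (5201 / 25) (52276 / 25) (43048 / 5) (80584 / 5) (75328 / 5) (173056 / 25) (31296 / 25) (by linarith) (by linarith) (by norm_num) (by norm_num) (by norm_num) (by norm_num) (by norm_num) (by norm_num) (by norm_num)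
    linarith

theorem certAux_p2 (x : ℝ) (hlo : (1) ≤ x) (hhi : x ≤ (14 / 5)) :
    (-8094 / 175) + (2880 / 91) * x ≤
      5 * x ^ 6 - 60 * x ^ 5 + 277 * x ^ 4 - 613 * x ^ 3 + 654 * x ^ 2 - 263 * x + 1 := by
  rcases le_total x (19 / 10) with h | h
  · have hB := certAux_bern (x - (1)) ((19 / 10) - x) (202840000 / 6908733) (3176960000 / 16120377) (585080000 / 1240029) (24029585000 / 48361131) (4098433400 / 16120377) (1009055900 / 16120377) (296138155 / 48361131) (by linarith) (by linarith) (by norm_num) (by norm_num) (by norm_num) (by norm_num) (by norm_num) (by norm_num) (by norm_num)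
    linarith
  · rcases le_total x (47 / 20) with h' | h'
    · have hB := certAux_bern (x - (19 / 10)) ((47 / 20) - x) (18952841920 / 48361131) (24568736960 / 16120377) (5231570000 / 2302911) (87868224800 / 48361131) (17294193500 / 16120377) (627588620 / 1240029) (5593805095 / 48361131) (by linarith) (by linarith) (by norm_num) (by norm_num) (by norm_num) (by norm_num) (by norm_num) (by norm_num) (by norm_num)
      linarith
    · have hB := certAux_bern (x - (47 / 20)) ((14 / 5) - x) (5593805095 / 48361131) (14216568320 / 16120377) (47583774800 / 16120377) (34737569600 / 6908733) (70757427200 / 16120377) (29167877120 / 16120377) (12940718080 / 48361131) (by linarith) (by linarith) (by norm_num) (by norm_num) (by norm_num) (by norm_num) (by norm_num) (by norm_num) (by norm_num)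
      linarith

theorem certAux_p3 (x : ℝ) (hlo : (14 / 5) ≤ x) :
    (-132 / 25) + (576 / 35) * x ≤
      5 * x ^ 6 - 60 * x ^ 5 + 277 * x ^ 4 - 613 * x ^ 3 + 654 * x ^ 2 - 263 * x + 1 := by
  rcases le_total x (67 / 20) with h | h
  · have hB := certAux_bern (x - (14 / 5)) ((67 / 20) - x) (242298880 / 1771561) (12992721920 / 12400927) (35944499200 / 12400927) (46326622400 / 12400927) (28823578800 / 12400927) (8199361920 / 12400927) (1116540715 / 12400927) (by linarith) (by linarith) (by norm_num) (by norm_num) (by norm_num) (by norm_num) (by norm_num) (by norm_num) (by norm_num)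
    linarith
  · rcases le_total x (39 / 10) with h' | h'
    · have hB := certAux_bern (x - (67 / 20)) ((39 / 10) - x) (1116540715 / 12400927) (742732380 / 1771561) (13822402500 / 12400927) (34934045600 / 12400927) (61771474000 / 12400927) (55647191360 / 12400927) (19131951040 / 12400927) (by linarith) (by linarith) (by norm_num) (by norm_num) (by norm_num) (by norm_num) (by norm_num) (by norm_num) (by norm_num)
      linarith
    · have hB := certAux_bern (x - (39 / 10)) 1 (59787347 / 1400000) (16802419 / 70000) (208131 / 400) (5141 / 10) (991 / 4) (57) (5) (by linarith) (by norm_num) (by norm_num) (by norm_num) (by norm_num) (by norm_num) (by norm_num) (by norm_num) (by norm_num)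
      linarith

theorem certificate (x : ℝ) (hx : 0 < x) (h1 : x ≠ 1) :
    24 * Real.log |x * (x - 1)| ≤
      5 * x ^ 6 - 60 * x ^ 5 + 277 * x ^ 4 - 613 * x ^ 3 + 654 * x ^ 2 - 263 * x + 1 := by
  rcases lt_or_gt_of_ne h1 with hlt | hgt
  · have habs : |x * (x - 1)| = x * (1 - x) := by
      rw [abs_of_nonpos (by nlinarith)]
      ring
    rw [habs, Real.log_mul hx.ne' (by linarith)]
    have hA := certAux_log x (3 / 8) hx (by norm_num)
    have hB := certAux_log (1 - x) (5 / 8) (by linarith) (by norm_num)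
    have hC := certAux_l1
    have hP := certAux_p1 x hx.le hlt.le
    have e1 : (x - 3 / 8) / (3 / 8) = (8 / 3) * x - 1 := by ring
    have e2 : (1 - x - 5 / 8) / (5 / 8) = 3 / 5 - (8 / 5) * x := by ring
    rw [e1] at hA
    rw [e2] at hB
    linarith
  · have habs : |x * (x - 1)| = x * (x - 1) := abs_of_nonneg (by nlinarith)
    rw [habs, Real.log_mul hx.ne' (by linarith)]
    rcases le_total x (14 / 5) with hl | hr
    · have hA := certAux_log x (13 / 6) hx (by norm_num)
      have hB := certAux_log (x - 1) (7 / 6) (by linarith) (by norm_num)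
      have hC := certAux_l2
      have hP := certAux_p2 x hgt.le hl
      have e1 : (x - 13 / 6) / (13 / 6) = (6 / 13) * x - 1 := by ring
      have e2 : (x - 1 - 7 / 6) / (7 / 6) = (6 / 7) * x - 13 / 7 := by ring
      rw [e1] at hA
      rw [e2] at hB
      linarith
    · have hA := certAux_log x (7 / 2) hx (by norm_num)
      have hB := certAux_log (x - 1) (5 / 2) (by linarith) (by norm_num)
      have hC := certAux_l3
      have hP := certAux_p3 x hr
      have e1 : (x - 7 / 2) / (7 / 2) = (2 / 7) * x - 1 := by ring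
      have e2 : (x - 1 - 5 / 2) / (5 / 2) = (2 / 5) * x - 7 / 5 := by ring
      rw [e1] at hA
      rw [e2] at hB
      linarith

end Pool.Agent.ST5
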