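import Mathlib

/-!
ST5 row F8. The first closed walk numbers of a graph that begins with a path of 7 vertices.

PROOF. By induction compute the rows (G^k) (e 0) l for k = 0..6:
 k=0: [l=e0]; 1: [l=e1]; 2: [e0]+[e2]; 3: 2[e1]+[e3]; 4: 2[e0]+3[e2]+[e4]; 5: 5[e1]+4[e3]+[e5];
 6: 5[e0]+9[e2]+5[e4]+[e6]   ((G^(k+1)) o l = ∑ j (G^k) o j * G j l, the sum is over j ∈ {e0..e5}
 and `hrow` gives G j l), and (G^(2k)) o o = ∑ l ((G^k) o l)^2 by symmetry of G^k. Injectivity of e
 on 0..6 makes the indicator functions orthogonal. Values 1, 1, 2, 5, 14, 42, 132.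
-/

namespace Pool.Agent.ST5

theorem closed_walks {J : Type*} [Fintype J] [DecidableEq J] (G : Matrix J J ℕ)
    (hsym : ∀ i j, G i j = G j i) (e : ℕ → J)
    (hinj : ∀ i ≤ 6, ∀ j ≤ 6, e i = e j → i = j)
    (hrow : ∀ k ≤ 5, ∀ l, G (e k) l =
      if l = e (k + 1) then 1 else if 1 ≤ k ∧ l = e (k - 1) then 1 else 0) :
    (G ^ 0) (e 0) (e 0) = 1 ∧ (G ^ 2) (e 0) (e 0) = 1 ∧ (G ^ 4) (e 0) (e 0) = 2 ∧
    (G ^ 6) (e 0) (e 0) = 5 ∧ (G ^ 8) (e 0) (e 0) = 14 ∧ (G ^ 10) (e 0) (e 0) = 42 ∧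
    (G ^ 12) (e 0) (e 0) = 132 := by
  classical
  set d : ℕ → J → ℕ := fun i => Pi.single (e i) 1 with hd
  have hdd : ∀ i ≤ 6, ∀ j ≤ 6, d i ⬝ᵥ d j = if i = j then 1 else 0 := by
    intro i hi j hj
    simp only [hd, single_one_dotProduct]
    by_cases h : i = j
    · subst h
      simp
    · rw [if_neg h, Pi.single_eq_of_ne]
      intro h1
      exact h (hinj i hi j hj h1)
  have hrow' : ∀ k ≤ 5, 1 ≤ k → Matrix.vecMul (d k) G = d (k + 1) + d (k - 1) := by
    intro k hk hk1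
    funext l
    simp only [hd, Matrix.single_one_vecMul, Pi.add_apply, Matrix.row]
    rw [hrow k hk l]
    have hne : e (k + 1) ≠ e (k - 1) := by
      intro h
      have := hinj (k + 1) (by omega) (k - 1) (by omega) h
      omega
    by_cases h1 : l = e (k + 1)
    · subst h1
      rw [if_pos rfl, Pi.single_eq_same, Pi.single_eq_of_ne hne, add_zero]
    · rw [if_neg h1, Pi.single_eq_of_ne h1]
      by_cases h2 : l = e (k - 1)
      · subst h2
        rw [if_pos ⟨hk1, rfl⟩, Pi.single_eq_same]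
      · rw [if_neg (fun h => h2 h.2), Pi.single_eq_of_ne h2, add_zero]
  have hrow0 : Matrix.vecMul (d 0) G = d 1 := by
    funext l
    simp only [hd, Matrix.single_one_vecMul, Matrix.row]
    rw [hrow 0 (by norm_num) l]
    by_cases h1 : l = e 1
    · subst h1
      simp
    · rw [if_neg (by simpa using h1), if_neg (by simp), Pi.single_eq_of_ne h1]
  have hsucc : ∀ k, Matrix.vecMul (d 0) (G ^ (k + 1)) = Matrix.vecMul (Matrix.vecMul (d 0) (G ^ k)) G := by
    intro k
    rw [pow_succ, Matrix.vecMul_vecMul]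
  have f0 : Matrix.vecMul (d 0) (G ^ 0) = d 0 := by
    rw [pow_zero, Matrix.vecMul_one]
  have f1 : Matrix.vecMul (d 0) (G ^ 1) = d 1 := by
    rw [hsucc 0, f0, hrow0]
  have f2 : Matrix.vecMul (d 0) (G ^ 2) = d 2 + d 0 := by
    rw [hsucc 1, f1, hrow' 1 (by norm_num) (by norm_num)]
  have f3 : Matrix.vecMul (d 0) (G ^ 3) = d 3 + 2 • d 1 := by
    rw [hsucc 2, f2, Matrix.add_vecMul, hrow0, hrow' 2 (by norm_num) (by norm_num), two_smul]
    abel
  have f4 : Matrix.vecMul (d 0) (G ^ 4) = d 4 + 3 • d 2 + 2 • d 0 := by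
    rw [hsucc 3, f3, Matrix.add_vecMul, Matrix.smul_vecMul, hrow' 1 (by norm_num) (by norm_num),
      hrow' 3 (by norm_num) (by norm_num)]
    abel
  have f5 : Matrix.vecMul (d 0) (G ^ 5) = d 5 + 4 • d 3 + 5 • d 1 := by
    rw [hsucc 4, f4, Matrix.add_vecMul, Matrix.add_vecMul, Matrix.smul_vecMul, Matrix.smul_vecMul, hrow0,
      hrow' 2 (by norm_num) (by norm_num), hrow' 4 (by norm_num) (by norm_num)]
    abel
  have f6 : Matrix.vecMul (d 0) (G ^ 6) = d 6 + 5 • d 4 + 9 • d 2 + 5 • d 0 := by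
    rw [hsucc 5, f5, Matrix.add_vecMul, Matrix.add_vecMul, Matrix.smul_vecMul, Matrix.smul_vecMul,
      hrow' 1 (by norm_num) (by norm_num), hrow' 3 (by norm_num) (by norm_num),
      hrow' 5 (by norm_num) (by norm_num)]
    abel
  have hT : ∀ k, (G ^ k).transpose = G ^ k := by
    intro k
    rw [Matrix.transpose_pow]
    congr 1
    ext i j
    exact hsym j i
  have hsq : ∀ k, (G ^ (2 * k)) (e 0) (e 0) =
      Matrix.vecMul (d 0) (G ^ k) ⬝ᵥ Matrix.vecMul (d 0) (G ^ k) := by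
    intro k
    have h1 : Matrix.vecMul (d 0) (G ^ k) = Matrix.mulVec (G ^ k) (d 0) := by
      rw [← Matrix.vecMul_transpose, hT]
    have h2 : Matrix.vecMul (d 0) (G ^ k) ⬝ᵥ Matrix.vecMul (d 0) (G ^ k) =
        d 0 ⬝ᵥ Matrix.mulVec (G ^ (2 * k)) (d 0) := by
      nth_rw 2 [h1]
      rw [← Matrix.dotProduct_mulVec, Matrix.mulVec_mulVec, ← pow_add, two_mul]
    rw [h2]
    simp only [hd, single_one_dotProduct, Matrix.mulVec_single_one, Matrix.col_apply]
  have D : ∀ i ≤ 6, ∀ j ≤ 6, d i ⬝ᵥ d j = if i = j then 1 else 0 := hdd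
  have g0 := hsq 0
  have g1 := hsq 1
  have g2 := hsq 2
  have g3 := hsq 3
  have g4 := hsq 4
  have g5 := hsq 5
  have g6 := hsq 6
  rw [f0] at g0
  rw [f1] at g1
  rw [f2] at g2
  rw [f3] at g3
  rw [f4] at g4
  rw [f5] at g5
  rw [f6] at g6
  simp only [add_dotProduct, dotProduct_add, smul_dotProduct, dotProduct_smul] at g0 g1 g2 g3 g4 g5 g6
  have E : ∀ i j, i ≤ 6 → j ≤ 6 → i ≠ j → d i ⬝ᵥ d j = 0 := by
    intro i j hi hj hij
    rw [D i hi j hj, if_neg hij]
  have S : ∀ i, i ≤ 6 → d i ⬝ᵥ d i = 1 := by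
    intro i hi
    rw [D i hi i hi, if_pos rfl]
  have a0 := S 0 (by norm_num)
  have a1 := S 1 (by norm_num)
  have a2 := S 2 (by norm_num)
  have a3 := S 3 (by norm_num)
  have a4 := S 4 (by norm_num)
  have a5 := S 5 (by norm_num)
  have a6 := S 6 (by norm_num)
  have b02 := E 0 2 (by norm_num) (by norm_num) (by norm_num)
  have b20 := E 2 0 (by norm_num) (by norm_num) (by norm_num)
  have b04 := E 0 4 (by norm_num) (by norm_num) (by norm_num)
  have b40 := E 4 0 (by norm_num) (by norm_num) (by norm_num)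
  have b06 := E 0 6 (by norm_num) (by norm_num) (by norm_num)
  have b60 := E 6 0 (by norm_num) (by norm_num) (by norm_num)
  have b24 := E 2 4 (by norm_num) (by norm_num) (by norm_num)
  have b42 := E 4 2 (by norm_num) (by norm_num) (by norm_num)
  have b26 := E 2 6 (by norm_num) (by norm_num) (by norm_num)
  have b62 := E 6 2 (by norm_num) (by norm_num) (by norm_num)
  have b46 := E 4 6 (by norm_num) (by norm_num) (by norm_num)
  have b64 := E 6 4 (by norm_num) (by norm_num) (by norm_num)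
  have b13 := E 1 3 (by norm_num) (by norm_num) (by norm_num)
  have b31 := E 3 1 (by norm_num) (by norm_num) (by norm_num)
  have b15 := E 1 5 (by norm_num) (by norm_num) (by norm_num)
  have b51 := E 5 1 (by norm_num) (by norm_num) (by norm_num)
  have b35 := E 3 5 (by norm_num) (by norm_num) (by norm_num)
  have b53 := E 5 3 (by norm_num) (by norm_num) (by norm_num)
  simp only [a0, a1, a2, a3, a4, a5, a6, b02, b20, b04, b40, b06, b60, b24, b42, b26, b62, b46, b64, b13, b31,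
    b15, b51, b35, b53, smul_eq_mul] at g0 g1 g2 g3 g4 g5 g6
  norm_num at g0 g1 g2 g3 g4 g5 g6
  refine ⟨?_, g1, g2, g3, g4, g5, g6⟩
  rw [pow_zero, Matrix.one_apply_eq]

end Pool.Agent.ST5
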