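import Mathlib
import Pool.Agent.ST5.F.F1
import Pool.Agent.ST5.F.F2
import Pool.Agent.ST5.F.F3
import Pool.Agent.ST5.F.F4
import Pool.Agent.ST5.F.F5b
import Pool.Agent.ST5.F.F6
import Pool.Agent.ST5.F.F8

/-!
ST5 row F7. The assembly of the linear algebra part.

PROOF. `exists_spectral_measure` gives s, w (for λ). Pass to τ = λ²: s' = s.image (·^2),
w' τ = ∑_{c ∈ s, c^2 = τ} w c ≥ 0, IsIntegral, τ ≥ 0, and (G^(2k)) o o = ∑_{τ ∈ s'} w' τ τ^k.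
For each W take t W, n W from `trace_pow_eq_sum` for the endomorphism (L W)^2
((L W)^(2k) = ((L W)^2)^k). `pf_rational` gives rational d W for even W and rational D = ∑ d_i^2 (> 0).
With hTF at m = 2k, `rational_weights` gives w' τ rational for τ ∈ s'. The power sums of w' are
natural numbers. `log_inequality` then `certificate` at each τ ∈ s' \ {0,1}, and q(0) = q(1) = 1 ≥ 0:
 0 ≤ 24 ∑_{τ ≠ 0,1} w' log|τ(τ-1)| ≤ ∑_{τ ∈ s'} w' τ q(τ)
   = 5*132-60*42+277*14-613*5+654*2-263*1+1 = -1  (`closed_walks`). Contradiction.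
-/

namespace Pool.Agent.ST5

theorem f7_square {J : Type*} [Fintype J] [DecidableEq J] (G : Matrix J J ℕ)
    (hsym : ∀ i j, G i j = G j i) (o : J) :
    ∃ (s : Finset ℝ) (w : ℝ → ℝ), (∀ τ ∈ s, 0 ≤ w τ) ∧ (∀ τ ∈ s, IsIntegral ℤ τ) ∧ (∀ τ ∈ s, 0 ≤ τ) ∧
      ∀ k : ℕ, (((G ^ (2 * k)) o o : ℕ) : ℝ) = ∑ τ ∈ s, w τ * τ ^ k := by
  obtain ⟨s, w, hw, hint, hm⟩ := exists_spectral_measure G hsym o
  refine ⟨s.image (fun c => c ^ 2), fun τ => ∑ c ∈ s.filter (fun c => c ^ 2 = τ), w c, ?_, ?_, ?_, ?_⟩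
  · intro τ _
    exact Finset.sum_nonneg fun c hc => hw c (Finset.mem_filter.1 hc).1
  · intro τ hτ
    obtain ⟨c, hc, rfl⟩ := Finset.mem_image.1 hτ
    exact (hint c hc).pow 2
  · intro τ hτ
    obtain ⟨c, _, rfl⟩ := Finset.mem_image.1 hτ
    exact sq_nonneg c
  · intro k
    rw [hm (2 * k)]
    rw [← Finset.sum_fiberwise_of_maps_to (s := s) (t := s.image (fun c => c ^ 2)) (g := fun c => c ^ 2)
      (fun c hc => Finset.mem_image_of_mem _ hc)]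
    refine Finset.sum_congr rfl fun τ _ => ?_
    rw [Finset.sum_mul]
    refine Finset.sum_congr rfl fun c hc => ?_
    rw [← (Finset.mem_filter.1 hc).2, ← pow_mul]

theorem linear_algebra_part {J : Type*} [Fintype J] [DecidableEq J] (a : J → ℕ)
    (G : Matrix J J ℕ) (hsym : ∀ i j, G i j = G j i)
    (hbip : ∀ i j, G i j ≠ 0 → (a i + a j) % 2 = 1) (o : J) (ho : a o = 0) (d : J → ℝ)
    (hd : ∀ i, 0 < d i) (hdo : d o = 1) (δ : ℝ)
    (hPF : ∀ i, ∑ j, (G i j : ℝ) * d j = δ * d i) (hconn : ∀ i, (G ^ (a i)) o i ≠ 0) (q : ℚ)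
    (hq : δ ^ 2 = q) (V : J → Type*) [∀ W, AddCommGroup (V W)] [∀ W, Module ℂ (V W)]
    [∀ W, FiniteDimensional ℂ (V W)] (L : ∀ W, V W →ₗ[ℂ] V W)
    (hTF : ∀ m : ℕ, ∑ W ∈ Finset.univ.filter (fun W => a W % 2 = 0),
      (d W : ℂ) * LinearMap.trace ℂ (V W) (L W ^ m) =
      ((∑ i, (d i) ^ 2 : ℝ) : ℂ) * (((G ^ m) o o : ℕ) : ℂ))
    (e : ℕ → J) (he0 : e 0 = o)
    (hinj : ∀ i ≤ 6, ∀ j ≤ 6, e i = e j → i = j)
    (hrow : ∀ k ≤ 5, ∀ l, G (e k) l =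
      if l = e (k + 1) then 1 else if 1 ≤ k ∧ l = e (k - 1) then 1 else 0) : False := by
  obtain ⟨s, w, hw, hint, hnn, hmom⟩ := f7_square G hsym o
  obtain ⟨hev, hsq⟩ := pf_rational a G hsym hbip o ho d hd hdo δ hPF hconn q hq
  -- traces
  choose t n htn using fun W : J => trace_pow_eq_sum (L W ^ 2)
  -- rational dimensions
  have hex : ∀ W : J, ∃ y : ℚ, a W % 2 = 0 → d W = y := by
    intro W
    by_cases h : a W % 2 = 0
    · obtain ⟨y, hy⟩ := hev W h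
      exact ⟨y, fun _ => hy⟩
    · exact ⟨0, fun h' => absurd h' h⟩
  choose dq hdq using hex
  choose sq hsq' using hsq
  set D : ℚ := ∑ i, sq i with hD
  have hDr : ((∑ i, (d i) ^ 2 : ℝ)) = (D : ℝ) := by
    rw [hD]
    push_cast
    exact Finset.sum_congr rfl fun i _ => hsq' i
  have hDpos : (0 : ℝ) < (D : ℝ) := by
    rw [← hDr]
    refine lt_of_lt_of_le ?_ (Finset.single_le_sum (f := fun i => (d i) ^ 2) (fun i _ => sq_nonneg _)
      (Finset.mem_univ o))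
    simp only [hdo]
    norm_num
  have hD0 : D ≠ 0 := by
    intro h
    rw [h] at hDpos
    simp at hDpos
  have hrat := rational_weights (Finset.univ.filter (fun W => a W % 2 = 0)) D hD0 dq t n s w (by
    intro k
    have h1 := hTF (2 * k)
    rw [hDr] at h1
    have h2 : ((((G ^ (2 * k)) o o : ℕ) : ℂ)) = ((∑ τ ∈ s, w τ * τ ^ k : ℝ) : ℂ) := by
      rw [← hmom k]
      norm_cast
    rw [h2] at h1
    have h3 : ((D : ℝ) : ℂ) = (D : ℂ) := by norm_cast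
    rw [h3] at h1
    rw [← h1]
    refine Finset.sum_congr rfl fun W hW => ?_
    have h4 : (d W : ℂ) = (dq W : ℂ) := by
      rw [hdq W (Finset.mem_filter.1 hW).2]
      norm_cast
    rw [h4, ← htn W k, ← pow_mul])
  have hex2 : ∀ τ : ℝ, ∃ y : ℚ, τ ∈ s → w τ = y := by
    intro τ
    by_cases h : τ ∈ s
    · obtain ⟨y, hy⟩ := hrat τ h
      exact ⟨y, fun _ => hy⟩
    · exact ⟨0, fun h' => absurd h' h⟩
  choose wq hwq using hex2
  have hwq0 : ∀ τ ∈ s, 0 ≤ wq τ := by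
    intro τ hτ
    have h1 := hw τ hτ
    rw [hwq τ hτ] at h1
    exact_mod_cast h1
  have hlog := log_inequality s wq hwq0 hint (by
    intro k
    refine ⟨(((G ^ (2 * k)) o o : ℕ) : ℚ), ?_⟩
    rw [show (((((G ^ (2 * k)) o o : ℕ) : ℚ) : ℝ)) = (((G ^ (2 * k)) o o : ℕ) : ℝ) by norm_cast, hmom k]
    exact Finset.sum_congr rfl fun τ hτ => by rw [hwq τ hτ])
  -- the certificate
  have hcert : ∑ τ ∈ s.filter (fun τ => τ ≠ 0 ∧ τ ≠ 1), (wq τ : ℝ) * (24 * Real.log |τ * (τ - 1)|) ≤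
      ∑ τ ∈ s, w τ * (5 * τ ^ 6 - 60 * τ ^ 5 + 277 * τ ^ 4 - 613 * τ ^ 3 + 654 * τ ^ 2 - 263 * τ + 1) := by
    calc ∑ τ ∈ s.filter (fun τ => τ ≠ 0 ∧ τ ≠ 1), (wq τ : ℝ) * (24 * Real.log |τ * (τ - 1)|) ≤
        ∑ τ ∈ s.filter (fun τ => τ ≠ 0 ∧ τ ≠ 1), w τ *
          (5 * τ ^ 6 - 60 * τ ^ 5 + 277 * τ ^ 4 - 613 * τ ^ 3 + 654 * τ ^ 2 - 263 * τ + 1) := by
          refine Finset.sum_le_sum fun τ hτ => ?_
          obtain ⟨h1, h2, h3⟩ := Finset.mem_filter.1 hτ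
          rw [← hwq τ h1]
          exact mul_le_mul_of_nonneg_left (certificate τ (lt_of_le_of_ne (hnn τ h1) (Ne.symm h2)) h3) (hw τ h1)
      _ ≤ _ := by
          refine Finset.sum_le_sum_of_subset_of_nonneg (Finset.filter_subset _ _) fun τ h1 h2 => ?_
          refine mul_nonneg (hw τ h1) ?_
          have h3 : ¬ (τ ≠ 0 ∧ τ ≠ 1) := fun h => h2 (Finset.mem_filter.2 ⟨h1, h⟩)
          by_cases h0 : τ = 0
          · rw [h0]; norm_num
          · have h4 : τ = 1 := by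
              by_contra h4
              exact h3 ⟨h0, h4⟩
            rw [h4]; norm_num
  have hL : 0 ≤ ∑ τ ∈ s.filter (fun τ => τ ≠ 0 ∧ τ ≠ 1), (wq τ : ℝ) * (24 * Real.log |τ * (τ - 1)|) := by
    have h1 : ∑ τ ∈ s.filter (fun τ => τ ≠ 0 ∧ τ ≠ 1), (wq τ : ℝ) * (24 * Real.log |τ * (τ - 1)|) =
        24 * ∑ τ ∈ s.filter (fun τ => τ ≠ 0 ∧ τ ≠ 1), (wq τ : ℝ) * Real.log |τ * (τ - 1)| := by
      rw [Finset.mul_sum]
      refine Finset.sum_congr rfl fun τ _ => by ring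
    rw [h1]
    exact mul_nonneg (by norm_num) hlog
  obtain ⟨c0, c1, c2, c3, c4, c5, c6⟩ := closed_walks G hsym e hinj hrow
  rw [he0] at c0 c1 c2 c3 c4 c5 c6
  have m0 := hmom 0
  have m1 := hmom 1
  have m2 := hmom 2
  have m3 := hmom 3
  have m4 := hmom 4
  have m5 := hmom 5
  have m6 := hmom 6
  norm_num only [mul_zero, mul_one] at m0 m1 m2 m3 m4 m5 m6
  rw [c0] at m0
  rw [c1] at m1
  rw [c2] at m2
  rw [c3] at m3
  rw [c4] at m4
  rw [c5] at m5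
  rw [c6] at m6
  have hsum : ∑ τ ∈ s, w τ * (5 * τ ^ 6 - 60 * τ ^ 5 + 277 * τ ^ 4 - 613 * τ ^ 3 + 654 * τ ^ 2 - 263 * τ + 1) =
      5 * ∑ τ ∈ s, w τ * τ ^ 6 - 60 * ∑ τ ∈ s, w τ * τ ^ 5 + 277 * ∑ τ ∈ s, w τ * τ ^ 4 -
      613 * ∑ τ ∈ s, w τ * τ ^ 3 + 654 * ∑ τ ∈ s, w τ * τ ^ 2 - 263 * ∑ τ ∈ s, w τ * τ ^ 1 +
      ∑ τ ∈ s, w τ * τ ^ 0 := by
    simp only [Finset.mul_sum]
    rw [← Finset.sum_sub_distrib, ← Finset.sum_add_distrib, ← Finset.sum_sub_distrib, ← Finset.sum_add_distrib,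
      ← Finset.sum_sub_distrib, ← Finset.sum_add_distrib]
    refine Finset.sum_congr rfl fun τ _ => by ring
  have hfin := le_trans hL hcert
  rw [hsum, ← m0, ← m1, ← m2, ← m3, ← m4, ← m5, ← m6] at hfin
  norm_num at hfin

end Pool.Agent.ST5
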